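import Pool.Agent.Helper69.BQ.St.C

/-! Project BQ: piece C6 (`rat_unit`). -/

namespace Pool.Agent.Helper28.BQ

open Module NumberField Pool.Agent.Helper25.Biq Pool.Agent.Helper69.BQ

variable {K : Type} [Field K] [NumberField K] [IsGalois ℚ K] {g12 g13 g23 : ℤ}

omit [IsGalois ℚ K] in
lemma delta_facts (s : K ≃ₐ[ℚ] K) (hs : ∀ x, s (s x) = x) {f : ℚ} (hf : f ≠ 0) (u : (𝓞 K)ˣ)
    {κ : K} (hκ : κ ≠ 0) (h : algebraMap ℚ K f = algebraMap (𝓞 K) K u * κ ^ 2) :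
    IsIntegral ℤ (algebraMap ℚ K f / (κ * s κ)) ∧ IsIntegral ℤ (algebraMap ℚ K f / (κ * s κ))⁻¹ ∧
      algebraMap ℚ K f / (κ * s κ) ≠ 0 ∧
      s (algebraMap ℚ K f / (κ * s κ)) = algebraMap ℚ K f / (κ * s κ) := by
  have hF : algebraMap ℚ K f ≠ 0 := (map_ne_zero _).2 hf
  have hsκ : s κ ≠ 0 := (map_ne_zero _).2 hκ
  have hη : algebraMap (𝓞 K) K u ≠ 0 := alg_ne_zero u.ne_zero
  have hsη : s (algebraMap (𝓞 K) K u) ≠ 0 := (map_ne_zero _).2 hη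
  have hsf : s (algebraMap ℚ K f) = algebraMap ℚ K f := s.commutes f
  have h' : algebraMap ℚ K f = s (algebraMap (𝓞 K) K u) * (s κ) ^ 2 := by
    rw [← hsf, h, map_mul, map_pow]
  have hsq : (algebraMap ℚ K f / (κ * s κ)) ^ 2 =
      algebraMap (𝓞 K) K u * s (algebraMap (𝓞 K) K u) := by
    have h2 : (algebraMap ℚ K f / (κ * s κ)) ^ 2 =
        (algebraMap ℚ K f * algebraMap ℚ K f) / (κ ^ 2 * s κ ^ 2) := by
      rw [div_pow, mul_pow, sq (algebraMap ℚ K f)]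
    rw [h2, div_eq_iff (mul_ne_zero (pow_ne_zero 2 hκ) (pow_ne_zero 2 hsκ))]
    nth_rewrite 1 [h]
    nth_rewrite 1 [h']
    ring
  have hiu : IsIntegral ℤ (algebraMap (𝓞 K) K u) := RingOfIntegers.isIntegral_coe _
  have hiv : IsIntegral ℤ (algebraMap (𝓞 K) K (u⁻¹ : (𝓞 K)ˣ)) := RingOfIntegers.isIntegral_coe _
  have huv : (algebraMap (𝓞 K) K u)⁻¹ = algebraMap (𝓞 K) K (u⁻¹ : (𝓞 K)ˣ) := by
    symm
    apply eq_inv_of_mul_eq_one_left
    rw [← map_mul, Units.inv_mul, map_one]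
  have his : ∀ x : K, IsIntegral ℤ x → IsIntegral ℤ (s x) := fun x hx =>
    map_isIntegral_int (s : K →+* K) hx
  refine ⟨?_, ?_, div_ne_zero hF (mul_ne_zero hκ hsκ), ?_⟩
  · apply IsIntegral.of_pow (n := 2) (by norm_num)
    rw [hsq]
    exact hiu.mul (his _ hiu)
  · apply IsIntegral.of_pow (n := 2) (by norm_num)
    rw [inv_pow, hsq, mul_inv, ← map_inv₀ s, huv]
    exact hiv.mul (his _ hiv)
  · rw [map_div₀, map_mul, hs, hsf, mul_comm (s κ)]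

/-- C6 (from C5 for the three subfields, and `rat_sqrt`). The rational numbers that are units
times squares. -/
theorem rat_unit (D : Dat K g12 g13 g23) (hA : Arith g12 g13 g23) {f : ℚ} (hf : f ≠ 0)
    (h : sc (algebraMap ℚ K f) ∈ UCl K) : ∃ a1 a2 a3 q : ℚ, q ≠ 0 ∧ Adm (g12 * g13) a1 ∧
      Adm (g12 * g23) a2 ∧ Adm (g13 * g23) a3 ∧
      (f * a1 * a2 * a3 = q ^ 2 ∨ f * a1 * a2 * a3 = (g12 * g13 : ℤ) * q ^ 2 ∨
        f * a1 * a2 * a3 = (g12 * g23 : ℤ) * q ^ 2 ∨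
        f * a1 * a2 * a3 = (g13 * g23 : ℤ) * q ^ 2) := by
  obtain ⟨u, hu⟩ := h
  have hF : algebraMap ℚ K f ≠ 0 := (map_ne_zero _).2 hf
  have hη : algebraMap (𝓞 K) K u ≠ 0 := alg_ne_zero u.ne_zero
  obtain ⟨κ, hκ, hfk⟩ := (sc_eq_iff hF hη).1 hu
  have inj : Function.Injective (algebraMap ℚ K) := (algebraMap ℚ K).injective
  have hσσ : ∀ x, D.σ (D.σ x) = x := D.v4.hss
  have hττ : ∀ x, D.τ (D.τ x) = x := D.v4.rot.hss
  have hρρ : ∀ x, D.ρ (D.ρ x) = x := D.v4.rot.rot.hss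
  obtain ⟨i1, j1, n1, e1⟩ := delta_facts D.σ hσσ hf u hκ hfk
  obtain ⟨i2, j2, n2, e2⟩ := delta_facts D.τ hττ hf u hκ hfk
  obtain ⟨i3, j3, n3, e3⟩ := delta_facts D.ρ hρρ hf u hκ hfk
  obtain ⟨m1, a1, γ1, c1, -, d1, A1⟩ := unit_fix D hA i1 j1 n1 e1
  obtain ⟨-, a2, γ2, c2, -, d2, A2⟩ := unit_fix D.rot hA.rot i2 j2 n2 e2
  obtain ⟨-, a3, γ3, c3, -, d3, A3⟩ := unit_fix D.rot.rot hA.rot.rot i3 j3 n3 e3
  rw [mul_comm g23 g12] at A2
  have hs : D.σ κ ≠ 0 := (map_ne_zero _).2 hκ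
  have ht : D.τ κ ≠ 0 := (map_ne_zero _).2 hκ
  have hr : D.ρ κ ≠ 0 := (map_ne_zero _).2 hκ
  -- the norm of κ
  have hN : κ * D.σ κ * (D.τ κ * D.ρ κ) = algebraMap ℚ K f ^ 2 := by
    have h1 : D.τ (algebraMap ℚ K f / (κ * D.σ κ)) =
        algebraMap ℚ K f / (D.τ κ * D.ρ κ) := by
      rw [map_div₀, map_mul, D.v4.hts, D.τ.commutes]
    rw [h1, div_mul_div_comm, div_eq_one_iff_eq (by simp [hκ, hs, ht, hr])] at m1
    rw [← m1, sq]
  have hprod : algebraMap ℚ K f / (κ * D.σ κ) * (algebraMap ℚ K f / (κ * D.τ κ)) *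
      (algebraMap ℚ K f / (κ * D.ρ κ)) = algebraMap ℚ K f / κ ^ 2 := by
    rw [div_mul_div_comm, div_mul_div_comm, div_eq_div_iff (by simp [hκ, hs, ht, hr])
      (by simp [hκ])]
    linear_combination (-(algebraMap ℚ K f) * κ ^ 2) * hN
  rw [d1, d2, d3] at hprod
  have hθ : (algebraMap ℚ K f / (κ * (γ1 * γ2 * γ3))) ^ 2 =
      algebraMap ℚ K (f * a1 * a2 * a3) := by
    rw [div_pow, div_eq_iff (by simp [hκ, c1, c2, c3])]
    have h2 : algebraMap ℚ K f = algebraMap ℚ K a1 * γ1 ^ 2 * (algebraMap ℚ K a2 * γ2 ^ 2) *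
        (algebraMap ℚ K a3 * γ3 ^ 2) * κ ^ 2 := by
      rw [hprod]
      field_simp
    simp only [map_mul]
    linear_combination (algebraMap ℚ K f) * h2
  have hne : f * a1 * a2 * a3 ≠ 0 :=
    mul_ne_zero (mul_ne_zero (mul_ne_zero hf A1.ne) A2.ne) A3.ne
  obtain ⟨q, hq⟩ := rat_sqrt D hA hθ
  refine ⟨a1, a2, a3, q, ?_, A1, A2, A3, ?_⟩
  · rintro rfl
    have h0 : algebraMap ℚ K f / (κ * (γ1 * γ2 * γ3)) = 0 := by
      rcases hq with hq | hq | hq | hq <;> rw [hq] <;> simp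
    rw [h0] at hθ
    apply hne
    apply inj
    rw [← hθ]
    simp
  · rcases hq with hq | hq | hq | hq
    · left
      apply inj
      rw [← hθ, hq, map_pow]
    · right; left
      apply inj
      rw [← hθ, hq, mul_pow, D.q1, map_mul, map_pow, map_intCast]
      ring
    · right; right; left
      apply inj
      rw [← hθ, hq, mul_pow, D.q2, map_mul, map_pow, map_intCast]
      ring
    · right; right; right
      apply inj
      rw [← hθ, hq, mul_pow, D.q3, map_mul, map_pow, map_intCast]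
      ring

end Pool.Agent.Helper28.BQ
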